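import Pool.Agent.H642.KK.Stm2
import Pool.Graph.R_seed8.H579R3.SB

set_option autoImplicit false
set_option linter.all false

/-!
# Project KK, F2: the dichotomy for finitely many limit points
-/

namespace Pool.Agent.H280.KK

open Set TopologicalSpace MeasureTheory
open Pool.Agent.H642.CK (Io Nb Om hm Cj Dn)
open Pool.Agent.H642.KK
open Pool.Agent.W889.VC (BP)

attribute [local instance] hm

theorem cj_refl {K : Type} [TopologicalSpace K] (f : K ≃ₜ K) : Cj f f :=
  ⟨Homeomorph.refl K, fun _ => rfl⟩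

theorem cj_trans {K : Type} [TopologicalSpace K] {f g h : K ≃ₜ K} (h1 : Cj f g) (h2 : Cj g h) :
    Cj f h := by
  obtain ⟨a, ha⟩ := h1
  obtain ⟨b, hb⟩ := h2
  refine ⟨a.trans b, fun x => ?_⟩
  rw [Homeomorph.trans_apply, Homeomorph.trans_apply, ha, hb]

section code

variable {K : Type} [TopologicalSpace K] (e : K ≃ ℕ)

/-- the self-map of `K` with the code `x` -/
def mp (x : ℕ → ℕ) : K → K := fun k => e.symm (x (e k))

/-- the code of a homeomorphism -/
def cd (f : K ≃ₜ K) : ℕ → ℕ := fun n => e (f (e.symm n))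

theorem mp_cd (f : K ≃ₜ K) : mp e (cd e f) = f := by
  funext k
  unfold mp cd
  rw [e.symm_apply_apply, e.symm_apply_apply]

theorem mp_inj {x y : ℕ → ℕ} (h : mp e x = mp e y) : x = y := by
  funext n
  have h1 := congrFun h (e.symm n)
  unfold mp at h1
  rw [e.apply_symm_apply] at h1
  exact e.symm.injective h1

/-- the codes of homeomorphisms -/
def HH : Set (ℕ → ℕ) := {x | ∃ f : K ≃ₜ K, (f : K → K) = mp e x}

open scoped Classical in
/-- the homeomorphism with the code `x` -/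
noncomputable def dec (x : ℕ → ℕ) : K ≃ₜ K :=
  if h : ∃ f : K ≃ₜ K, (f : K → K) = mp e x then h.choose else Homeomorph.refl K

theorem dec_spec {x : ℕ → ℕ} (h : x ∈ HH e) : (dec e x : K → K) = mp e x := by
  have h' : ∃ f : K ≃ₜ K, (f : K → K) = mp e x := h
  unfold dec
  rw [dif_pos h']
  exact h'.choose_spec

theorem dec_not {x : ℕ → ℕ} (h : x ∉ HH e) : dec e x = Homeomorph.refl K := by
  have h' : ¬ ∃ f : K ≃ₜ K, (f : K → K) = mp e x := h
  unfold dec
  rw [dif_neg h']

theorem cd_mem (f : K ≃ₜ K) : cd e f ∈ HH e := ⟨f, (mp_cd e f).symm⟩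

theorem dec_cd (f : K ≃ₜ K) : dec e (cd e f) = f := by
  apply DFunLike.coe_injective
  rw [dec_spec e (cd_mem e f), mp_cd]

theorem HH_iff [CompactSpace K] [T2Space K] [TotallyDisconnectedSpace K] (x : ℕ → ℕ) :
    x ∈ HH e ↔ (∀ i j, x i = x j → i = j) ∧ (∀ j, ∃ i, x i = j) ∧
      ∀ V : Clopens K, ∃ U : Clopens K, ∀ k : K, (mp e x k ∈ V ↔ k ∈ U) := by
  constructor
  · rintro ⟨f, hf⟩
    refine ⟨fun i j hij => ?_, fun j => ?_, fun V => ?_⟩
    · have h1 : f (e.symm i) = f (e.symm j) := by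
        rw [hf]
        unfold mp
        rw [e.apply_symm_apply, e.apply_symm_apply, hij]
      exact e.symm.injective (f.injective h1)
    · refine ⟨e (f.symm (e.symm j)), ?_⟩
      have h1 : f (f.symm (e.symm j)) = e.symm j := f.apply_symm_apply _
      rw [hf] at h1
      exact e.symm.injective h1
    · refine ⟨⟨f ⁻¹' V, V.isClopen.preimage f.continuous⟩, fun k => ?_⟩
      rw [← hf]
      rfl
  · rintro ⟨h1, h2, h3⟩
    have hb : Function.Bijective (mp e x) := by
      constructor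
      · intro k l hkl
        unfold mp at hkl
        exact e.injective (h1 _ _ (e.symm.injective hkl))
      · intro k
        obtain ⟨i, hi⟩ := h2 (e k)
        refine ⟨e.symm i, ?_⟩
        unfold mp
        rw [e.apply_symm_apply, hi, e.symm_apply_apply]
    have hc : Continuous (Equiv.ofBijective _ hb) := by
      rw [isTopologicalBasis_isClopen.continuous_iff]
      intro s hs
      obtain ⟨U, hU⟩ := h3 ⟨s, hs⟩
      have h4 : (Equiv.ofBijective _ hb) ⁻¹' s = U := by
        ext k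
        exact hU k
      rw [h4]
      exact U.isClopen.isOpen
    exact ⟨hc.homeoOfEquivCompactToT2, rfl⟩

theorem BP_mp (k : K) (V : Set K) : BP (fun x : ℕ → ℕ => mp e x k ∈ V) := by
  have h1 : MeasurableSet {n : ℕ | e.symm n ∈ V} := MeasurableSet.of_discrete
  exact (measurable_pi_apply (e k) : Measurable fun x : ℕ → ℕ => x (e k)) h1

theorem BP_HH [CompactSpace K] [T2Space K] [TotallyDisconnectedSpace K]
    [SecondCountableTopology K] [Countable K] : BP (fun x : ℕ → ℕ => x ∈ HH e) := by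
  haveI : Countable (Clopens K) := Clopens.countable_iff_secondCountable.2 inferInstance
  refine BP.congr ?_ (fun x => (HH_iff e x).symm)
  refine BP.and ?_ (BP.and ?_ ?_)
  · refine BP.all fun i => BP.all fun j => BP.imp ?_ (BP.const _)
    exact measurableSet_eq_fun (measurable_pi_apply i) (measurable_pi_apply j)
  · refine BP.all fun j => BP.ex fun i => ?_
    exact (measurable_pi_apply i : Measurable fun x : ℕ → ℕ => x i) (measurableSet_singleton j)
  · exact BP.all fun V => BP.ex fun U => BP.all fun k => BP.iff (BP_mp e k V) (BP.const _)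

theorem BP_dec [CompactSpace K] [T2Space K] [TotallyDisconnectedSpace K]
    [SecondCountableTopology K] [Countable K] (i j : K) :
    BP (fun x : ℕ → ℕ => dec e x i = j) := by
  have h1 := BP_HH e
  have h2 : BP (fun x : ℕ → ℕ => (x ∈ HH e ∧ mp e x i ∈ ({j} : Set K)) ∨ (x ∉ HH e ∧ i = j)) :=
    BP.or (BP.and h1 (BP_mp e i {j})) (BP.and h1.not (BP.const _))
  refine h2.congr fun x => ?_
  by_cases hx : x ∈ HH e
  · rw [dec_spec e hx]
    simp [hx]
  · rw [dec_not e hx]
    simp [hx]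

/-- the equivalence relation on codes -/
def EE (x y : ℕ → ℕ) : Prop := x = y ∨ (x ∈ HH e ∧ y ∈ HH e ∧ Cj (dec e x) (dec e y))

theorem EE_equiv : Equivalence (EE e) := by
  refine ⟨fun x => Or.inl rfl, ?_, ?_⟩
  · rintro x y (h | ⟨h1, h2, h3⟩)
    · exact Or.inl h.symm
    · exact Or.inr ⟨h2, h1, h3.symm⟩
  · rintro x y z (h | ⟨h1, h2, h3⟩) (h' | ⟨h1', h2', h3'⟩)
    · exact Or.inl (h.trans h')
    · rw [h]
      exact Or.inr ⟨h1', h2', h3'⟩
    · rw [← h']
      exact Or.inr ⟨h1, h2, h3⟩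
    · exact Or.inr ⟨h1, h2', cj_trans h3 h3'⟩

end code

theorem BP.comp {Y Z : Type} [MeasurableSpace Y] [MeasurableSpace Z] {p : Y → Prop} (h : BP p)
    {u : Z → Y} (hu : Measurable u) : BP (fun z => p (u z)) := hu h

theorem EE_meas (hF1 : S_F1) (hCP : S_CP) {K : Type} [TopologicalSpace K] [CompactSpace K]
    [T2Space K] [SecondCountableTopology K] [TotallyDisconnectedSpace K]
    (hfin : {x : K | ¬ Io x}.Finite) [Infinite K] (e : K ≃ ℕ) :
    MeasurableSet {q : (ℕ → ℕ) × (ℕ → ℕ) | EE e q.1 q.2} := by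
  obtain ⟨hK, hCol, hne, hcrit⟩ := hF1 K hfin
  obtain ⟨c0, hc0⟩ := hne inferInstance
  have h1 : BP (fun q : (ℕ → ℕ) × (ℕ → ℕ) => q.1 = q.2) :=
    measurableSet_eq_fun measurable_fst measurable_snd
  have h2 : BP (fun q : (ℕ → ℕ) × (ℕ → ℕ) => q.1 ∈ HH e) := BP.comp (BP_HH e) measurable_fst
  have h3 : BP (fun q : (ℕ → ℕ) × (ℕ → ℕ) => q.2 ∈ HH e) := BP.comp (BP_HH e) measurable_snd
  have hc1 : Countable {d : K → K // d ∈ Col K} := hCol.to_subtype
  have hL : Finite {x : K // ¬ Io x} := hfin.to_subtype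
  have hc2 : Countable {σ : Equiv.Perm K // ∀ x, Io x → σ x = x} := by
    refine Function.Injective.countable
      (f := fun (σ : {σ : Equiv.Perm K // ∀ x, Io x → σ x = x}) (l : {x : K // ¬ Io x}) => σ.1 l.1) ?_
    intro σ τ h
    apply Subtype.ext
    ext x
    by_cases hx : Io x
    · rw [σ.2 x hx, τ.2 x hx]
    · exact congrFun h ⟨x, hx⟩
  have h4 : BP (fun q : (ℕ → ℕ) × (ℕ → ℕ) => Cj (dec e q.1) (dec e q.2)) := by
    have h5 : BP (fun q : (ℕ → ℕ) × (ℕ → ℕ) => ∃ d : {d : K → K // d ∈ Col K},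
        ∃ σ : {σ : Equiv.Perm K // ∀ x, Io x → σ x = x},
        CIso (dec e q.1).toEquiv (dec e q.2).toEquiv (fun x => (σ.1 (c0 x), Io x))
          (fun x => (d.1 x, Io x))) := by
      refine BP.ex fun d => BP.ex fun σ => ?_
      refine hCP K (K × Prop) ((ℕ → ℕ) × (ℕ → ℕ)) (fun q => (dec e q.1).toEquiv)
        (fun q => (dec e q.2).toEquiv) _ _ (fun i j => ?_) (fun i j => ?_)
      · exact BP.comp (BP_dec e i j) measurable_fst
      · exact BP.comp (BP_dec e i j) measurable_snd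
    refine h5.congr fun q => ?_
    rw [hcrit c0 hc0 (dec e q.1) (dec e q.2)]
    constructor
    · rintro ⟨d, σ, h⟩
      exact ⟨d.1, d.2, σ.1, σ.2, h⟩
    · rintro ⟨d, hd, σ, hσ, h⟩
      exact ⟨⟨d, hd⟩, ⟨σ, hσ⟩, h⟩
  exact BP.or h1 (BP.and h2 (BP.and h3 h4))

theorem t_F2 : S_F2 := by
  intro hF1 hCP K _ _ _ _ _ hfin B hB hinv _
  rcases finite_or_infinite K with hK | hK
  · left
    haveI : Finite (K ≃ₜ K) :=
      Finite.of_injective (fun f : K ≃ₜ K => (f : K → K)) DFunLike.coe_injective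
    haveI : Nonempty (K ≃ₜ K) := ⟨Homeomorph.refl K⟩
    obtain ⟨f, hf⟩ := exists_surjective_nat (K ≃ₜ K)
    refine ⟨f, fun y _ => ?_⟩
    obtain ⟨n, hn⟩ := hf y
    exact ⟨n, by rw [hn]; exact cj_refl y⟩
  · obtain ⟨hKc, -, -, -⟩ := hF1 K hfin
    obtain ⟨hden⟩ := nonempty_denumerable K
    have e : K ≃ ℕ := Denumerable.eqv K
    obtain ⟨B', hB', hBB⟩ := hB
    have hmp : @Measurable (ℕ → ℕ) (K → K) MeasurableSpace.pi
        (@MeasurableSpace.pi K (fun _ => K) (fun _ => borel K)) (mp e) := by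
      letI : MeasurableSpace K := borel K
      refine measurable_pi_lambda _ fun k => ?_
      exact (measurable_from_nat (f := fun n => e.symm n)).comp (measurable_pi_apply (e k))
    have hA : MeasurableSet {x : ℕ → ℕ | x ∈ HH e ∧ mp e x ∈ B'} :=
      MeasurableSet.inter (BP_HH e) (hmp hB')
    have hAB : ∀ x, x ∈ {x : ℕ → ℕ | x ∈ HH e ∧ mp e x ∈ B'} → dec e x ∈ B := by
      rintro x ⟨hx1, hx2⟩
      rw [← hBB]
      change (dec e x : K → K) ∈ B'
      rw [dec_spec e hx1]
      exact hx2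
    have hBA : ∀ y ∈ B, cd e y ∈ {x : ℕ → ℕ | x ∈ HH e ∧ mp e x ∈ B'} := by
      intro y hy
      refine ⟨cd_mem e y, ?_⟩
      rw [mp_cd]
      rw [← hBB] at hy
      exact hy
    rcases Pool.Agent.H579R3.SV.silver (EE_equiv e) (EE_meas hF1 hCP hfin e) hA.analyticSet with
      ⟨S, hSA, hSc, hS⟩ | ⟨h, hh1, hh2, hh3⟩
    · left
      rcases S.eq_empty_or_nonempty with hS0 | hS0
      · refine ⟨fun _ => Homeomorph.refl K, fun y hy => ?_⟩
        obtain ⟨z, hz, -⟩ := hS _ (hBA y hy)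
        rw [hS0] at hz
        exact absurd hz (notMem_empty z)
      · obtain ⟨s, hs⟩ := hSc.exists_eq_range hS0
        refine ⟨fun n => dec e (s n), fun y hy => ?_⟩
        obtain ⟨z, hz, hE⟩ := hS _ (hBA y hy)
        rw [hs] at hz
        obtain ⟨n, rfl⟩ := hz
        refine ⟨n, ?_⟩
        rcases hE with h1 | ⟨-, -, h1⟩
        · change Cj (dec e (s n)) y
          rw [← h1, dec_cd]
          exact cj_refl y
        · rw [dec_cd] at h1
          exact h1.symm
    · right
      refine ⟨fun c => dec e (h c), ?_, fun c => hAB _ (hh2 c), fun c d hcd => ?_⟩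
      · rw [measurable_comap_iff]
        have h1 : (fun f : K ≃ₜ K => (f : K → K)) ∘ (fun c => dec e (h c)) = fun c => mp e (h c) := by
          funext c
          exact dec_spec e (hh2 c).1
        rw [h1]
        exact hmp.comp hh1.measurable
      · by_contra hne
        exact hh3 c d hne (Or.inr ⟨(hh2 c).1, (hh2 d).1, hcd⟩)

end Pool.Agent.H280.KK
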